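import Pool.Agent.K6.H21.LC.Res

/-!
# From local consistency to the size of resolution refutations
-/

open Finset

namespace Pool.Agent.K6.H21.LC

variable {N q : ℕ}

theorem mem_cnf {G : Game N q} {C : Finset (Var N q × Bool)} : C ∈ cnf G ↔
    (∃ w, C = univ.image fun a => ((w, a), true)) ∨
    (∃ w a b, a ≠ b ∧ C = {((w, a), false), ((w, b), false)}) ∨
    ∃ e ∈ G, ∃ a b, e.2.2 a ≠ b ∧ C = {((Sum.inl e.1, a), false), ((Sum.inr e.2.1, b), false)} :=
  Iff.rfl

/-- the CNF is satisfiable iff some labeling satisfies all edges -/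
theorem cnf_sat (G : Game N q) :
    (∃ v : Var N q → Bool, Satisfies v (cnf G)) ↔ ∃ x y, numSat G x y = G.length := by
  constructor
  · rintro ⟨v, hv⟩
    have h1 : ∀ w : Fin N ⊕ Fin N, ∃ a, v (w, a) = true := by
      intro w
      obtain ⟨l, hl, hvl⟩ := hv _ (mem_cnf.2 (Or.inl ⟨w, rfl⟩))
      obtain ⟨a, -, rfl⟩ := Finset.mem_image.1 hl
      exact ⟨a, hvl⟩
    choose z hz using h1
    refine ⟨fun u => z (Sum.inl u), fun u => z (Sum.inr u), ?_⟩
    rw [numSat, List.length_filter_eq_length_iff]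
    intro e he
    rw [decide_eq_true_eq]
    by_contra hne
    obtain ⟨l, hl, hvl⟩ := hv _ (mem_cnf.2 (Or.inr (Or.inr ⟨e, he, _, _, hne, rfl⟩)))
    rw [Finset.mem_insert, Finset.mem_singleton] at hl
    rcases hl with rfl | rfl
    · simp [hz] at hvl
    · simp [hz] at hvl
  · rintro ⟨x, y, hxy⟩
    rw [numSat, List.length_filter_eq_length_iff] at hxy
    refine ⟨fun l => decide (Sum.elim x y l.1 = l.2), ?_⟩
    intro C hC
    rcases mem_cnf.1 hC with ⟨w, rfl⟩ | ⟨w, a, b, hab, rfl⟩ | ⟨e, he, a, b, hab, rfl⟩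
    · exact ⟨((w, Sum.elim x y w), true), Finset.mem_image.2 ⟨_, Finset.mem_univ _, rfl⟩, by simp⟩
    · by_cases h : Sum.elim x y w = a
      · refine ⟨((w, b), false), by simp, ?_⟩
        simp [h, hab]
      · exact ⟨((w, a), false), by simp, by simp [h]⟩
    · have h0 := hxy e he
      rw [decide_eq_true_eq] at h0
      by_cases h : x e.1 = a
      · refine ⟨((Sum.inr e.2.1, b), false), by simp, ?_⟩
        have : y e.2.1 ≠ b := by
          rw [← h0, h]
          exact hab
        simp [this]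
      · exact ⟨((Sum.inl e.1, a), false), by simp, by simp [h]⟩

/-- the clauses are short -/
theorem cnf_card (G : Game N q) : ∀ C ∈ cnf G, C.card ≤ q + 2 := by
  intro C hC
  rcases mem_cnf.1 hC with ⟨w, rfl⟩ | ⟨w, a, b, hab, rfl⟩ | ⟨e, he, a, b, hab, rfl⟩
  · refine Finset.card_image_le.trans ?_
    rw [Finset.card_univ, Fintype.card_fin]
    omega
  · exact Finset.card_le_two.trans (by omega)
  · exact Finset.card_le_two.trans (by omega)

/-- a locally consistent family of partial labelings gives a family of partial assignments -/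
theorem fam_of (G : Game N q) (hq : 1 ≤ q) {k : ℕ} (hG : KConsistent G k) :
    ∃ H : Set (Finset (Var N q × Bool)), Fam (cnf G) ∅ k H := by
  obtain ⟨F, hF0, hF1, hF2, hF3⟩ := hG
  refine ⟨{α | ∃ f ∈ F, ∀ l ∈ α, ∃ c, f l.1.1 = some c ∧ l.2 = decide (c = l.1.2)}, ?_, ?_, ?_,
    ?_, ?_⟩
  · obtain ⟨f, hf⟩ := hF0
    exact ⟨f, hf, fun l hl => absurd hl (Finset.notMem_empty _)⟩
  · rintro α ⟨f, hf, hα⟩ β hβ
    exact ⟨f, hf, fun l hl => hα l (hβ hl)⟩
  · intro α _ l _
    exact ⟨Finset.notMem_empty _, Finset.notMem_empty _⟩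
  · rintro α ⟨f, hf, hα⟩ hcard ⟨w, a⟩ - -
    -- restrict `f` to the vertices of `α`
    classical
    set S : Finset (Fin N ⊕ Fin N) := α.image fun l => l.1.1 with hS
    set g : Fin N ⊕ Fin N → Option (Fin q) := fun w => if w ∈ S then f w else none with hg
    have hgF : g ∈ F := by
      refine hF1 f hf g fun w => ?_
      by_cases h : w ∈ S
      · right; simp [hg, h]
      · left; simp [hg, h]
    have hgc : (univ.filter fun w => g w ≠ none).card < k := by
      have hSc : S.card ≤ α.card := Finset.card_image_le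
      refine lt_of_le_of_lt ((Finset.card_le_card (t := S) ?_).trans hSc) hcard
      intro w hw
      rw [Finset.mem_filter] at hw
      by_contra h
      exact hw.2 (by simp only [hg]; rw [if_neg h])
    obtain ⟨g', hg', hgg, hgw⟩ := hF3 g hgF hgc w
    obtain ⟨c, hc⟩ := Option.ne_none_iff_exists'.1 hgw
    refine ⟨decide (c = a), g', hg', ?_⟩
    intro l hl
    rcases Finset.mem_insert.1 hl with h | h
    · rw [h]
      exact ⟨c, hc, rfl⟩
    · obtain ⟨c', hc', hl'⟩ := hα l h
      refine ⟨c', ?_, hl'⟩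
      have h1 : g l.1.1 = f l.1.1 := by
        simp only [hg]
        rw [if_pos (Finset.mem_image_of_mem _ h)]
      rcases hgg l.1.1 with h2 | h2
      · rw [h1, hc'] at h2
        exact absurd h2 (by simp)
      · rw [h2, h1, hc']
  · rintro C hC α ⟨f, hf, hα⟩ hfals
    have hfals' : ∀ l ∈ C, ∃ c, f l.1.1 = some c ∧ (!l.2) = decide (c = l.1.2) := by
      intro l hl
      have h1 := hfals l hl
      rw [Finset.union_empty] at h1
      exact hα _ h1
    rcases mem_cnf.1 hC with ⟨w, rfl⟩ | ⟨w, a, b, hab, rfl⟩ | ⟨e, he, a, b, hab, rfl⟩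
    · have h1 : ∀ a, ∃ c, f w = some c ∧ (!true) = decide (c = a) := by
        intro a
        exact hfals' ((w, a), true) (Finset.mem_image.2 ⟨a, Finset.mem_univ _, rfl⟩)
      obtain ⟨c, hc, -⟩ := h1 ⟨0, hq⟩
      obtain ⟨c', hc', h2⟩ := h1 c
      rw [hc] at hc'
      have := Option.some_injective _ hc'
      simp [this] at h2
    · obtain ⟨c, hc, h2⟩ := hfals' ((w, a), false) (by simp)
      obtain ⟨c', hc', h3⟩ := hfals' ((w, b), false) (by simp)
      simp only at hc hc' h2 h3
      rw [hc] at hc'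
      have := Option.some_injective _ hc'
      simp at h2 h3
      exact hab (by rw [← h2, ← h3, this])
    · obtain ⟨c, hc, h2⟩ := hfals' ((Sum.inl e.1, a), false) (by simp)
      obtain ⟨c', hc', h3⟩ := hfals' ((Sum.inr e.2.1, b), false) (by simp)
      simp only at hc hc' h2 h3
      simp at h2 h3
      rw [h2] at hc
      rw [h3] at hc'
      exact hab (hF2 f hf e he a b hc hc')

/-- Local consistency of level `k` makes every resolution refutation large. -/
theorem size_of_consistent (G : Game N q) (hq : 1 ≤ q) (hN : 1 ≤ N) {k : ℕ}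
    (hG : KConsistent G k) (hk : 2 * q + 8 ≤ k) {L : List (Finset (Var N q × Bool))}
    (hL : IsRefutation (cnf G) L) :
    Real.exp ((k : ℝ) ^ 2 / (64 * N * q)) ≤ L.length := by
  obtain ⟨H, hH⟩ := fam_of G hq hG
  have h1 := size_bound hL (cnf_card G) hH (d := (k - 1) / 2) (k := (k - 1) / 2) (by omega) (by omega)
  refine le_trans (Real.exp_le_exp.2 ?_) h1
  rw [Fintype.card_prod, Fintype.card_sum, Fintype.card_fin, Fintype.card_fin]
  have h2 : (k : ℝ) / 4 ≤ (((k - 1) / 2 : ℕ) : ℝ) := by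
    have h3 : k ≤ 4 * ((k - 1) / 2) := by omega
    have h4 : (k : ℝ) ≤ ((4 * ((k - 1) / 2) : ℕ) : ℝ) := by exact_mod_cast h3
    push_cast at h4 ⊢
    linarith
  have hNr : (0 : ℝ) < N := by exact_mod_cast hN
  have hqr : (0 : ℝ) < q := by exact_mod_cast hq
  have e1 : (k : ℝ) ^ 2 / (64 * N * q) = (k / 4) * (k / 4) / (2 * (((N + N) * q : ℕ) : ℝ)) := by
    push_cast
    field_simp
    ring
  rw [e1]
  have h5 : (0 : ℝ) ≤ (k : ℝ) / 4 := by positivity
  gcongr

end Pool.Agent.K6.H21.LC
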