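import Mathlib

/-!
# 2-to-1 games, local consistency and resolution: the definitions
-/

open Finset

namespace Pool.Agent.K6.H21.LC

/-! ## Resolution -/

/-- `L` is a resolution refutation of the set `F` of clauses. A clause is a finite set of literals
`(x, b)`: the variable `x` has the value `b`. Every clause of the list `L` belongs to `F` or it
follows from two earlier clauses by the resolution rule, possibly with a weakening; and the empty
clause occurs. -/
def IsRefutation {X : Type} [DecidableEq X] (F : Set (Finset (X × Bool)))
    (L : List (Finset (X × Bool))) : Prop :=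
  ∅ ∈ L ∧ ∀ (i : ℕ) (hi : i < L.length), L[i] ∈ F ∨
    ∃ (j k : ℕ) (hj : j < i) (hk : k < i) (x : X),
      L[j] ⊆ insert (x, true) L[i] ∧ L[k] ⊆ insert (x, false) L[i]

/-- the assignment `v` satisfies all clauses of `F` -/
def Satisfies {X : Type} (v : X → Bool) (F : Set (Finset (X × Bool))) : Prop :=
  ∀ C ∈ F, ∃ l ∈ C, v l.1 = l.2

/-! ## Games -/

/-- a game with the vertices `U = Fin N`, `V = Fin N` and the alphabet `Fin q`: the list of the edges
`(u, v, π)`; the edge `(u, v, π)` is satisfied if `π (label of u) = label of v` -/
abbrev Game (N q : ℕ) : Type := List (Fin N × Fin N × (Fin q → Fin q))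

variable {N q : ℕ}

/-- there is an edge, and all fibers of all constraint maps have at most two elements -/
def TwoToOne (G : Game N q) : Prop :=
  G ≠ [] ∧ ∀ e ∈ G, ∀ b : Fin q, (univ.filter fun a => e.2.2 a = b).card ≤ 2

/-- no two edges of the list join the same pair of vertices -/
def Simple (G : Game N q) : Prop := (G.map fun e => (e.1, e.2.1)).Nodup

/-- the number of edges satisfied by the labels `x` of `U` and `y` of `V` -/
def numSat (G : Game N q) (x y : Fin N → Fin q) : ℕ :=
  (G.filter fun e => e.2.2 (x e.1) = y e.2.1).length

/-- Strong `k`-consistency: there is a nonempty family of partial labelings of the vertices (on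
`U ⊕ V`, `none` means no label) which is closed under restriction, whose members satisfy all edges
with both ends in their domain, and in which every member with fewer than `k` labels can be extended
to every further vertex. -/
def KConsistent (G : Game N q) (k : ℕ) : Prop :=
  ∃ F : Set (Fin N ⊕ Fin N → Option (Fin q)), F.Nonempty ∧
    (∀ f ∈ F, ∀ g : Fin N ⊕ Fin N → Option (Fin q), (∀ w, g w = none ∨ g w = f w) → g ∈ F) ∧
    (∀ f ∈ F, ∀ e ∈ G, ∀ a b : Fin q, f (Sum.inl e.1) = some a → f (Sum.inr e.2.1) = some b →
      e.2.2 a = b) ∧
    ∀ f ∈ F, (univ.filter fun w => f w ≠ none).card < k → ∀ w, ∃ g ∈ F,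
      (∀ w', f w' = none ∨ g w' = f w') ∧ g w ≠ none

/-- the propositional variable `(w, a)`: the vertex `w` has the label `a` -/
abbrev Var (N q : ℕ) : Type := (Fin N ⊕ Fin N) × Fin q

/-- The clauses saying that there is a labeling which satisfies all edges of `G`: every vertex has a
label, at most one label, and the labels of the ends of an edge match. -/
def cnf (G : Game N q) : Set (Finset (Var N q × Bool)) :=
  {C | (∃ w, C = univ.image fun a => ((w, a), true)) ∨
    (∃ w a b, a ≠ b ∧ C = {((w, a), false), ((w, b), false)}) ∨
    ∃ e ∈ G, ∃ a b, e.2.2 a ≠ b ∧ C = {((Sum.inl e.1, a), false), ((Sum.inr e.2.1, b), false)}}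

end Pool.Agent.K6.H21.LC
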