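import Mathlib
import Pool.Agent.H589R3.DT.Props

/-!
# Random shifts: every labelling satisfies few constraints

The union bound of `H589R3/DT/SH.lean` (starting file) with binomial coefficients.
-/

open scoped Classical
open Finset

namespace Pool.Agent.K6.H21.LC

open H589DT


theorem card_fix {E : Type} [Fintype E] {p : ℕ} [NeZero p] (T : Finset E) (f : E → ZMod p) :
    (Fintype.piFinset (fun e => if e ∈ T then ({f e} : Finset (ZMod p)) else univ)).card =
      p ^ (Fintype.card E - T.card) := by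
  rw [Fintype.card_piFinset]
  have h : ∀ e, (if e ∈ T then ({f e} : Finset (ZMod p)) else univ).card =
      if e ∈ T then 1 else p := by
    intro e
    split_ifs
    · simp
    · simp [ZMod.card]
  simp only [h]
  rw [Finset.prod_ite, Finset.prod_const_one, one_mul, Finset.prod_const]
  congr 1
  rw [Finset.filter_not, Finset.filter_mem_eq_inter, Finset.univ_inter,
    Finset.card_sdiff_of_subset (Finset.subset_univ _), Finset.card_univ]


theorem t_SHl (n D p d K : ℕ) (hp : 1 ≤ p) (φ : Fin n → Fin D → Fin n) (B : Finset (Fin n))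
    (h : (d * p ^ 2) ^ n * (n * D).choose K < p ^ K) :
    ∃ s : Fin n → Fin D → ZMod p, ∀ (x : Fin n → ZMod p × Fin d) (y : Fin n → ZMod p),
      (univ.filter fun e : Fin n × Fin D => e.1 ∉ B ∧
        (x e.1).1 - ((e.2 : ℕ) : ZMod p) * (((x e.1).2 : ℕ) : ZMod p) + s e.1 e.2
          = y (φ e.1 e.2)).card < K := by
  have : NeZero p := ⟨by omega⟩
  by_contra hcon
  push Not at hcon
  set f : (Fin n → ZMod p × Fin d) → (Fin n → ZMod p) → (Fin n × Fin D) → ZMod p :=
    fun x y e => y (φ e.1 e.2) - ((x e.1).1 - ((e.2 : ℕ) : ZMod p) * (((x e.1).2 : ℕ) : ZMod p))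
    with hf
  -- the cover of the set of all shifts
  set I : Finset ((Fin n → ZMod p × Fin d) × (Fin n → ZMod p) × Finset (Fin n × Fin D)) :=
    univ ×ˢ (univ ×ˢ powersetCard K univ) with hI
  set F : ((Fin n → ZMod p × Fin d) × (Fin n → ZMod p) × Finset (Fin n × Fin D)) →
      Finset ((Fin n × Fin D) → ZMod p) := fun q =>
    Fintype.piFinset (fun e => if e ∈ q.2.2 then ({f q.1 q.2.1 e} : Finset (ZMod p)) else univ)
    with hF
  have hcov : (univ : Finset ((Fin n × Fin D) → ZMod p)) ⊆ I.biUnion F := by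
    intro s _
    obtain ⟨x, y, hxy⟩ := hcon fun w i => s (w, i)
    obtain ⟨T, hT, hTc⟩ := Finset.exists_subset_card_eq hxy
    rw [Finset.mem_biUnion]
    refine ⟨(x, y, T), ?_, ?_⟩
    · rw [hI]
      simp only [Finset.mem_product, Finset.mem_univ, true_and, Finset.mem_powersetCard]
      exact ⟨Finset.subset_univ _, hTc⟩
    · rw [hF]
      simp only [Fintype.mem_piFinset]
      intro e
      split_ifs with he
      · have h1 := hT he
        rw [Finset.mem_filter] at h1
        rw [Finset.mem_singleton, hf]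
        have h2 := h1.2.2
        simp only at h2 ⊢
        rw [← h2]
        ring
      · exact Finset.mem_univ _
  have hFc : ∀ q ∈ I, (F q).card ≤ p ^ (n * D - K) := by
    intro q hq
    rw [hI] at hq
    simp only [Finset.mem_product, Finset.mem_univ, true_and, Finset.mem_powersetCard] at hq
    have h0 := card_fix q.2.2 (f q.1 q.2.1)
    rw [hq.2, Fintype.card_prod, Fintype.card_fin, Fintype.card_fin] at h0
    rw [← h0, hF]
    apply le_of_eq
    congr 1
    ext g
    simp only [Fintype.mem_piFinset]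
    refine forall_congr' fun a => ?_
    by_cases ha : a ∈ q.2.2
    · rw [if_pos ha, if_pos ha]
    · rw [if_neg ha, if_neg ha]
  have h1 : (univ : Finset ((Fin n × Fin D) → ZMod p)).card ≤ I.card * p ^ (n * D - K) :=
    (Finset.card_le_card hcov).trans (Finset.card_biUnion_le_card_mul _ _ _ hFc)
  have h2 : (univ : Finset ((Fin n × Fin D) → ZMod p)).card = p ^ (n * D) := by
    rw [Finset.card_univ, Fintype.card_fun, ZMod.card, Fintype.card_prod, Fintype.card_fin,
      Fintype.card_fin]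
  have h3 : I.card ≤ (d * p ^ 2) ^ n * (n * D).choose K := by
    rw [hI, Finset.card_product, Finset.card_product, Finset.card_univ, Finset.card_univ,
      Fintype.card_fun, Fintype.card_fun, Fintype.card_prod, ZMod.card, Fintype.card_fin,
      Fintype.card_fin]
    have h4 : (powersetCard K (univ : Finset (Fin n × Fin D))).card = (n * D).choose K := by
      rw [Finset.card_powersetCard, Finset.card_univ, Fintype.card_prod, Fintype.card_fin,
        Fintype.card_fin]
    rw [h4]
    apply le_of_eq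
    rw [← mul_assoc, ← mul_pow]
    congr 2
    ring
  -- `K ≤ n * D`
  have hK : K ≤ n * D := by
    obtain ⟨x, y, hxy⟩ := hcon fun _ _ => 0
    refine hxy.trans ((Finset.card_le_card (Finset.filter_subset _ _)).trans (le_of_eq ?_))
    rw [Finset.card_univ, Fintype.card_prod, Fintype.card_fin, Fintype.card_fin]
  have hpos : 0 < p ^ (n * D - K) := Nat.pow_pos (by omega)
  have h5 : p ^ (n * D) < p ^ (n * D) := by
    calc p ^ (n * D) ≤ I.card * p ^ (n * D - K) := by rw [← h2]; exact h1
      _ ≤ ((d * p ^ 2) ^ n * (n * D).choose K) * p ^ (n * D - K) := Nat.mul_le_mul_right _ h3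
      _ < p ^ K * p ^ (n * D - K) := Nat.mul_lt_mul_of_pos_right h hpos
      _ = p ^ (n * D) := by rw [← pow_add]; congr 1; omega
  exact lt_irrefl _ h5

theorem choose_pow3 (N s : ℕ) : N.choose s * s ^ s ≤ (3 * N) ^ s := by
  have h1 : (N.choose s : ℝ) ≤ (N : ℝ) ^ s / s.factorial := Nat.choose_le_pow_div s N
  have h2 : (s : ℝ) ^ s / s.factorial ≤ Real.exp s := Real.pow_div_factorial_le_exp s (by positivity) s
  have h3 : Real.exp s ≤ 3 ^ s := by
    have : Real.exp s = Real.exp 1 ^ s := by rw [← Real.exp_nat_mul, mul_one]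
    rw [this]
    exact pow_le_pow_left₀ (Real.exp_pos 1).le (Real.exp_one_lt_d9.le.trans (by norm_num)) s
  have h4 : ((N.choose s * s ^ s : ℕ) : ℝ) ≤ (((3 * N) ^ s : ℕ) : ℝ) := by
    push_cast
    calc (N.choose s : ℝ) * (s : ℝ) ^ s ≤ ((N : ℝ) ^ s / s.factorial) * (s : ℝ) ^ s :=
          mul_le_mul_of_nonneg_right h1 (by positivity)
      _ = (N : ℝ) ^ s * ((s : ℝ) ^ s / s.factorial) := by ring
      _ ≤ (N : ℝ) ^ s * 3 ^ s := by
          refine mul_le_mul_of_nonneg_left (h2.trans h3) (by positivity)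
      _ = (3 * N) ^ s := by
          rw [← mul_pow]
          ring
  exact_mod_cast h4

/-- the numerical condition for the union bound -/
theorem num_union (n p K : ℕ) (δ Λ : ℝ) (h0 : 0 < δ) (h1 : δ ≤ 1) (hΛ : Λ = 1 + Real.log (1 / δ))
    (hn : 1 ≤ n) (hp : 32 * Λ / δ ≤ p) (hp2 : (p : ℝ) ≤ 66 * Λ / δ) (hK : δ * (n * p) / 2 ≤ K) :
    (2 * p ^ 2) ^ n * (n * p).choose K < p ^ K := by
  have hlog : 0 ≤ Real.log (1 / δ) := Real.log_nonneg (by rw [le_div_iff₀ h0]; linarith)
  have hΛ1 : 1 ≤ Λ := by linarith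
  have hnr : (1 : ℝ) ≤ n := by exact_mod_cast hn
  have hpδ : 32 * Λ ≤ δ * p := by
    rw [div_le_iff₀ h0] at hp
    linarith
  have hppos : (0 : ℝ) < p := by
    by_contra h
    push Not at h
    nlinarith
  have hKΛ : 16 * Λ * n ≤ K := by nlinarith
  have hKpos : (0 : ℝ) < K := by nlinarith
  -- `2 p² ≤ exp (15 Λ)`
  have hexp1 : (2.7182818283 : ℝ) < Real.exp 1 := Real.exp_one_gt_d9
  have hexp2 : Real.exp 1 < 2.7182818286 := Real.exp_one_lt_d9
  have hinv : 1 / δ ≤ Real.exp Λ := by
    rw [hΛ, Real.exp_add, Real.exp_log (by positivity)]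
    have : 0 < 1 / δ := by positivity
    nlinarith
  have hΛe : Λ ≤ Real.exp Λ := by
    have := Real.add_one_le_exp Λ
    linarith
  have h66 : (66 : ℝ) ≤ Real.exp 5 := by
    have h2 : Real.exp 5 = Real.exp 1 ^ 5 := by
      rw [← Real.exp_nat_mul]
      norm_num
    rw [h2]
    calc (66 : ℝ) ≤ (2.7182818283 : ℝ) ^ 5 := by norm_num
      _ ≤ Real.exp 1 ^ 5 := pow_le_pow_left₀ (by norm_num) hexp1.le 5
  have hpe : (p : ℝ) ≤ Real.exp (5 + 2 * Λ) := by
    calc (p : ℝ) ≤ 66 * Λ / δ := hp2
      _ = 66 * Λ * (1 / δ) := by ring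
      _ ≤ Real.exp 5 * Real.exp Λ * Real.exp Λ := by
          have : 0 < 1 / δ := by positivity
          gcongr
      _ = Real.exp (5 + 2 * Λ) := by
          rw [← Real.exp_add, ← Real.exp_add]
          congr 1
          ring
  have h2p : 2 * (p : ℝ) ^ 2 ≤ Real.exp (15 * Λ) := by
    calc 2 * (p : ℝ) ^ 2 ≤ Real.exp 1 * (Real.exp (5 + 2 * Λ)) ^ 2 := by
          have := pow_le_pow_left₀ hppos.le hpe 2
          have h3 : (2 : ℝ) ≤ Real.exp 1 := by linarith
          gcongr
      _ = Real.exp (11 + 4 * Λ) := by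
          rw [← Real.exp_nat_mul, ← Real.exp_add]
          congr 1
          push_cast
          ring
      _ ≤ Real.exp (15 * Λ) := Real.exp_le_exp.2 (by linarith)
  have hA : (2 * (p : ℝ) ^ 2) ^ n < Real.exp K := by
    calc (2 * (p : ℝ) ^ 2) ^ n ≤ (Real.exp (15 * Λ)) ^ n := pow_le_pow_left₀ (by positivity) h2p n
      _ = Real.exp (n * (15 * Λ)) := by rw [← Real.exp_nat_mul]
      _ < Real.exp K := Real.exp_lt_exp.2 (by nlinarith)
  have hB : Real.exp K ≤ (δ * p / 6) ^ K := by
    have h2 : Real.exp K = Real.exp 1 ^ K := by rw [← Real.exp_nat_mul, mul_one]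
    rw [h2]
    apply pow_le_pow_left₀ (Real.exp_pos 1).le
    rw [le_div_iff₀ (by norm_num)]
    nlinarith
  have hC : (((n * p).choose K : ℕ) : ℝ) ≤ (6 / δ) ^ K := by
    have h2 : (((n * p).choose K * K ^ K : ℕ) : ℝ) ≤ (((3 * (n * p)) ^ K : ℕ) : ℝ) := by
      exact_mod_cast choose_pow3 (n * p) K
    push_cast at h2
    have h3 : (3 * ((n : ℝ) * p)) ^ K ≤ (6 / δ * K) ^ K := by
      apply pow_le_pow_left₀ (by positivity)
      rw [div_mul_eq_mul_div, le_div_iff₀ h0]
      linarith
    rw [mul_pow (6 / δ)] at h3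
    exact le_of_mul_le_mul_right (h2.trans h3) (by positivity)
  have hfin : ((2 * (p : ℝ) ^ 2) ^ n) * (((n * p).choose K : ℕ) : ℝ) < (p : ℝ) ^ K := by
    have h2 : (0 : ℝ) < (6 / δ) ^ K := by positivity
    calc ((2 * (p : ℝ) ^ 2) ^ n) * (((n * p).choose K : ℕ) : ℝ)
        ≤ (2 * (p : ℝ) ^ 2) ^ n * (6 / δ) ^ K := mul_le_mul_of_nonneg_left hC (by positivity)
      _ < Real.exp K * (6 / δ) ^ K := mul_lt_mul_of_pos_right hA h2
      _ ≤ (δ * p / 6) ^ K * (6 / δ) ^ K := mul_le_mul_of_nonneg_right hB h2.le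
      _ = (p : ℝ) ^ K := by
          rw [← mul_pow]
          congr 1
          field_simp
  exact_mod_cast hfin

end Pool.Agent.K6.H21.LC
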