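import Pool.Agent.H589R3.DT.Defs
import Pool.Agent.H589R3.DT.Props
import Pool.Agent.K6.H21.LC.Defs

/-!
# The 2-to-1 game of a constraint graph `gameGraph φ B s`
-/

open scoped Classical
open Finset

namespace Pool.Agent.K6.H21.LC

open H589DT

variable {n D p : ℕ} [NeZero p]

/-- enumeration of the labels -/
noncomputable def enc (p : ℕ) [NeZero p] : ZMod p × Fin 2 ≃ Fin (2 * p) :=
  Fintype.equivFinOfCardEq (by rw [Fintype.card_prod, ZMod.card, Fintype.card_fin]; ring)

/-- the set of edges -/
noncomputable def ES (D : ℕ) (B : Finset (Fin n)) : Finset (Fin n × Fin D) :=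
  univ.filter fun e => e.1 ∉ B

/-- the constraint map -/
noncomputable def cmap (s : Fin n → Fin D → ZMod p) (e : Fin n × Fin D) (a : Fin (2 * p)) :
    Fin (2 * p) :=
  enc p (((enc p).symm a).1 - ((e.2 : ℕ) : ZMod p) * ((((enc p).symm a).2 : ℕ) : ZMod p) +
    s e.1 e.2, 0)

/-- the game -/
noncomputable def theGame (φ : Fin n → Fin D → Fin n) (B : Finset (Fin n))
    (s : Fin n → Fin D → ZMod p) : Game n (2 * p) :=
  (ES D B).toList.map fun e => (e.1, φ e.1 e.2, cmap s e)

variable (φ : Fin n → Fin D → Fin n) (B : Finset (Fin n)) (s : Fin n → Fin D → ZMod p)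

theorem mem_theGame {e : Fin n × Fin n × (Fin (2 * p) → Fin (2 * p))} : e ∈ theGame φ B s ↔
    ∃ w i, w ∉ B ∧ e = (w, φ w i, cmap s (w, i)) := by
  simp only [theGame, List.mem_map, Finset.mem_toList, ES, Finset.mem_filter, Finset.mem_univ,
    true_and, Prod.exists]
  constructor
  · rintro ⟨w, i, h1, h2⟩
    exact ⟨w, i, h1, h2.symm⟩
  · rintro ⟨w, i, h1, h2⟩
    exact ⟨w, i, h1, h2.symm⟩

theorem length_theGame : (theGame φ B s).length = (n - B.card) * D := by
  rw [theGame, List.length_map, Finset.length_toList, ES]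
  have : (univ.filter fun e : Fin n × Fin D => e.1 ∉ B) = (univ \ B) ×ˢ (univ : Finset (Fin D)) := by
    ext ⟨w, i⟩
    simp
  rw [this, card_product, card_sdiff_of_subset (subset_univ _), card_univ, card_univ,
    Fintype.card_fin, Fintype.card_fin]

theorem twoToOne_theGame (h : 0 < (n - B.card) * D) : TwoToOne (theGame φ B s) := by
  constructor
  · rw [← List.length_pos_iff_ne_nil, length_theGame]
    exact h
  · intro e he b
    obtain ⟨w, i, -, rfl⟩ := (mem_theGame φ B s).1 he
    have h1 : (univ.filter fun a => cmap s (w, i) a = b).card ≤ (univ : Finset (Fin 2)).card := by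
      apply Finset.card_le_card_of_injOn fun a => ((enc p).symm a).2
      · intro a _
        exact Finset.mem_coe.2 (Finset.mem_univ _)
      · intro a ha a' ha' haa
        rw [Finset.mem_coe, Finset.mem_filter] at ha ha'
        have h2 : cmap s (w, i) a = cmap s (w, i) a' := by rw [ha.2, ha'.2]
        unfold cmap at h2
        have h3 := congrArg Prod.fst ((enc p).injective h2)
        simp only at h3 haa
        rw [haa] at h3
        have h4 : ((enc p).symm a).1 = ((enc p).symm a').1 := by
          simpa using h3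
        exact (enc p).symm.injective (Prod.ext h4 haa)
    simpa using h1

theorem simple_theGame (hφ : ∀ w i j, w ∉ B → φ w i = φ w j → i = j) :
    Simple (theGame φ B s) := by
  rw [Simple, theGame, List.map_map]
  refine List.Nodup.map_on ?_ (Finset.nodup_toList _)
  rintro ⟨w, i⟩ h1 ⟨w', i'⟩ h2 h3
  rw [Finset.mem_toList, ES, Finset.mem_filter] at h1 h2
  simp only [Function.comp, Prod.mk.injEq] at h3
  obtain ⟨rfl, h4⟩ := h3
  rw [hφ w i i' h1.2 h4]

theorem length_filter_toList {α : Type} (S : Finset α) (P : α → Bool) :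
    (S.toList.filter P).length = (S.filter fun a => P a = true).card := by
  rw [← List.countP_eq_length_filter]
  have h1 : (S.filter fun a => P a = true).card = Multiset.countP (fun a => P a = true) S.val :=
    (Multiset.countP_eq_card_filter _ _).symm
  rw [h1, ← Finset.coe_toList, Multiset.coe_countP]
  simp

theorem numSat_theGame (x y : Fin n → Fin (2 * p)) : numSat (theGame φ B s) x y =
    (univ.filter fun e : Fin n × Fin D => e.1 ∉ B ∧
      ((enc p).symm (x e.1)).1 - ((e.2 : ℕ) : ZMod p) * ((((enc p).symm (x e.1)).2 : ℕ) : ZMod p) +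
        s e.1 e.2 = ((enc p).symm (y (φ e.1 e.2))).1 ∧
          ((enc p).symm (y (φ e.1 e.2))).2 = 0).card := by
  rw [numSat, theGame, List.filter_map, List.length_map, length_filter_toList, ES,
    Finset.filter_filter]
  congr 1
  ext e
  simp only [Finset.mem_filter, Finset.mem_univ, true_and, Function.comp, decide_eq_true_eq,
    and_congr_right_iff]
  intro _
  rw [cmap, ← Equiv.eq_symm_apply, Prod.ext_iff]
  exact and_congr_right fun _ => eq_comm

theorem numSat_lt {K : ℕ} (h : ∀ (x : Fin n → ZMod p × Fin 2) (y : Fin n → ZMod p),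
      (univ.filter fun e : Fin n × Fin D => e.1 ∉ B ∧
        (x e.1).1 - ((e.2 : ℕ) : ZMod p) * (((x e.1).2 : ℕ) : ZMod p) + s e.1 e.2
          = y (φ e.1 e.2)).card < K) (x y : Fin n → Fin (2 * p)) :
    numSat (theGame φ B s) x y < K := by
  rw [numSat_theGame]
  refine lt_of_le_of_lt (Finset.card_le_card ?_)
    (h (fun w => (enc p).symm (x w)) fun w => ((enc p).symm (y w)).1)
  intro e he
  rw [Finset.mem_filter] at he ⊢
  exact ⟨he.1, he.2.1, he.2.2.1⟩

/-- local consistency of the game -/
theorem kconsistent_theGame {l : ℕ} (F : Local (Fin n ⊕ Fin n) (ZMod p × Fin 2) l)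
    (hF : ∀ S ρ, F.C S ρ → (gameGraph (d := 2) φ B s).SatOn S ρ) :
    KConsistent (theGame φ B s) l := by
  set lab : (Fin n ⊕ Fin n → ZMod p × Fin 2) → Fin n ⊕ Fin n → Fin (2 * p) := fun ρ w =>
    Sum.elim (fun u => enc p (ρ (Sum.inr u))) (fun v => enc p ((ρ (Sum.inl v)).1, 0)) w with hlab
  have hsw : Function.Injective (Sum.swap : Fin n ⊕ Fin n → Fin n ⊕ Fin n) :=
    Sum.swap_leftInverse.injective
  refine ⟨{f | ∃ (S : Finset (Fin n ⊕ Fin n)) (ρ : Fin n ⊕ Fin n → ZMod p × Fin 2), F.C S ρ ∧
    ∀ w, f w = if w.swap ∈ S then some (lab ρ w) else none}, ?_, ?_, ?_, ?_⟩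
  · obtain ⟨ρ, hρ⟩ := F.empty
    exact ⟨fun w => none, ∅, ρ, hρ, fun w => by simp⟩
  · rintro f ⟨S, ρ, hS, hf⟩ g hg
    refine ⟨S.filter fun w => g w.swap ≠ none, ρ, F.mono _ S ρ (Finset.filter_subset _ _) hS, ?_⟩
    intro w
    have hmem : w.swap ∈ (S.filter fun w => g w.swap ≠ none) ↔ w.swap ∈ S ∧ g w ≠ none := by
      rw [Finset.mem_filter, Sum.swap_swap]
    by_cases h0 : g w = none
    · rw [if_neg (fun h => (hmem.1 h).2 h0)]
      exact h0
    · have h1 := (hg w).resolve_left h0
      have h2 := hf w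
      by_cases h3 : w.swap ∈ S
      · rw [if_pos (hmem.2 ⟨h3, h0⟩), h1, h2, if_pos h3]
      · rw [if_neg h3] at h2
        exact absurd (h1.trans h2) h0
  · rintro f ⟨S, ρ, hS, hf⟩ e he a b ha hb
    obtain ⟨w, i, hw, rfl⟩ := (mem_theGame φ B s).1 he
    have h1 := hf (Sum.inl w)
    have h2 := hf (Sum.inr (φ w i))
    simp only at ha hb
    rw [ha] at h1
    rw [hb] at h2
    have hm1 : Sum.inr w ∈ S := by
      by_contra h
      rw [if_neg (by simpa using h)] at h1
      exact absurd h1 (by simp)
    have hm2 : Sum.inl (φ w i) ∈ S := by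
      by_contra h
      rw [if_neg (by simpa using h)] at h2
      exact absurd h2 (by simp)
    rw [if_pos (by simpa using hm1)] at h1
    rw [if_pos (by simpa using hm2)] at h2
    have h1' : a = enc p (ρ (Sum.inr w)) := by simpa [hlab] using h1
    have h2' : b = enc p ((ρ (Sum.inl (φ w i))).1, 0) := by simpa [hlab] using h2
    have h3 := hF S ρ hS ⟨(w, i), hw⟩ (by
      simp only [CGraph.ein, Finset.mem_filter, Finset.mem_univ, true_and]
      exact ⟨hm2, hm1⟩)
    have h4 : (ρ (Sum.inr w)).1 - ((i : ℕ) : ZMod p) * (((ρ (Sum.inr w)).2 : ℕ) : ZMod p) + s w i =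
        (ρ (Sum.inl (φ w i))).1 := h3
    show cmap s (w, i) a = b
    rw [cmap, h1', h2', Equiv.symm_apply_apply, h4]
  · rintro f ⟨S, ρ, hS, hf⟩ hcard w
    have hS' : S.card < l := by
      refine lt_of_le_of_lt ?_ hcard
      refine Finset.card_le_card_of_injOn Sum.swap ?_ hsw.injOn
      intro u hu
      rw [Finset.mem_coe, Finset.mem_filter]
      refine ⟨Finset.mem_univ _, ?_⟩
      rw [hf, Sum.swap_swap, if_pos (Finset.mem_coe.1 hu)]
      simp
    obtain ⟨ρ', h1, h2⟩ := F.ext S (insert w.swap S) ρ (Finset.subset_insert _ _)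
      ((Finset.card_insert_le _ _).trans hS') hS
    refine ⟨fun w' => if w'.swap ∈ insert w.swap S then some (lab ρ' w') else none,
      ⟨_, ρ', h2, fun _ => rfl⟩, ?_, ?_⟩
    · intro w'
      by_cases h3 : w'.swap ∈ S
      · right
        rw [hf, if_pos h3]
        simp only
        rw [if_pos (Finset.mem_insert_of_mem h3)]
        rcases w' with u | v
        · have h4 : ρ' (Sum.inr u) = ρ (Sum.inr u) := h1 _ h3
          simp only [hlab, Sum.elim_inl]
          rw [h4]
        · have h4 : ρ' (Sum.inl v) = ρ (Sum.inl v) := h1 _ h3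
          simp only [hlab, Sum.elim_inr]
          rw [h4]
      · left
        rw [hf, if_neg h3]
    · simp

end Pool.Agent.K6.H21.LC
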