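import Pool.Agent.H589R3.DT.MX
import Pool.Agent.H589R3.DT.LO
import Pool.Agent.H589R3.DT.CL
import Pool.Agent.H589R3.DT.XT
import Pool.Agent.H589R3.DT.WD
import Pool.Agent.H589R3.DT.WI
import Pool.Agent.K6.H21.LC.Ex
import Pool.Agent.K6.H21.LC.Sh
import Pool.Agent.K6.H21.LC.TheGame
import Pool.Agent.K6.H21.LC.Cons

/-!
# 2-to-1 games of value at most `δ` with linear local consistency
-/

open scoped Classical
open Finset

namespace Pool.Agent.K6.H21.LC

open H589DT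

theorem mem_ein' {U E Λ : Type} [Fintype U] [Fintype E] {G : CGraph U E Λ} {S : Finset U} {e : E} :
    e ∈ G.ein S ↔ G.src e ∈ S ∧ G.tgt e ∈ S := by
  simp [CGraph.ein]

/-- the edges of the constraint graph and `einφ` -/
theorem ein_le' {n D p d : ℕ} (φ : Fin n → Fin D → Fin n) (B : Finset (Fin n))
    (s : Fin n → Fin D → ZMod p) (S : Finset (Fin n ⊕ Fin n)) :
    ((gameGraph (d := d) φ B s).ein S).card ≤ (einφ φ B S).card := by
  apply card_le_card_of_injOn Subtype.val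
  · intro e he
    have h := mem_ein'.1 (mem_coe.1 he)
    exact mem_coe.2 (mem_filter.2 ⟨mem_univ _, e.2, h.2, h.1⟩)
  · exact Subtype.val_injective.injOn

theorem gameGraph_surj' {n D p d : ℕ} (hd : 1 ≤ d) (φ : Fin n → Fin D → Fin n)
    (B : Finset (Fin n)) (s : Fin n → Fin D → ZMod p) :
    (gameGraph (d := d) φ B s).Surj := by
  constructor
  · intro e a
    refine ⟨(a.1 - s e.1.1 e.1.2, ⟨0, hd⟩), ?_⟩
    show a.1 - s e.1.1 e.1.2 - _ * (((⟨0, hd⟩ : Fin d) : ℕ) : ZMod p) + s e.1.1 e.1.2 = a.1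
    simp
  · intro e b
    exact ⟨(b.1 - ((e.1.2 : ℕ) : ZMod p) * (b.2 : ℕ) + s e.1.1 e.1.2, b.2), rfl⟩

theorem phi_inj' {n D : ℕ} {φ : Fin n → Fin D → Fin n} {B : Finset (Fin n)}
    (h : ∀ S : Finset (Fin n ⊕ Fin n), S.Nonempty → S.card ≤ 2 → (einφ φ B S).card < S.card) :
    ∀ w i j, w ∉ B → φ w i = φ w j → i = j := by
  intro w i j hw hij
  by_contra hne
  have h1 := h {Sum.inl (φ w i), Sum.inr w} (by simp) (card_le_two)
  have h2 : ({(w, i), (w, j)} : Finset (Fin n × Fin D)) ⊆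
      einφ φ B {Sum.inl (φ w i), Sum.inr w} := by
    intro e he
    rw [mem_insert, mem_singleton] at he
    rcases he with rfl | rfl
    · exact mem_filter.2 ⟨mem_univ _, hw, by simp, by simp⟩
    · exact mem_filter.2 ⟨mem_univ _, hw, by simp, by simp [hij]⟩
  have h3 := card_le_card h2
  have h4 : ({(w, i), (w, j)} : Finset (Fin n × Fin D)).card = 2 := by
    rw [card_pair]
    intro h5
    exact hne (Prod.mk.inj h5).2
  have h5 : ({Sum.inl (φ w i), Sum.inr w} : Finset (Fin n ⊕ Fin n)).card ≤ 2 := card_le_two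
  omega

theorem kConsistent_mono {N q : ℕ} {G : Game N q} {k k' : ℕ} (h : k' ≤ k)
    (hG : KConsistent G k) : KConsistent G k' := by
  obtain ⟨F, h0, h1, h2, h3⟩ := hG
  exact ⟨F, h0, h1, h2, fun f hf hc => h3 f hf (lt_of_lt_of_le hc h)⟩

/-- the games -/
theorem exists_game (δ : ℝ) (h0 : 0 < δ) (h1 : δ ≤ 1) :
    ∃ q Q N0 : ℕ, 1 ≤ q ∧ 1 ≤ Q ∧ (q : ℝ) ≤ 132 * (1 + Real.log (1 / δ)) / δ ∧
      ∀ N : ℕ, N0 ≤ N → ∃ G : Game N q,
        TwoToOne G ∧ Simple G ∧ 2 * G.length ≤ q * N ∧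
        (∀ x y, (numSat G x y : ℝ) ≤ δ * G.length) ∧ KConsistent G (N / Q) := by
  set Λ := 1 + Real.log (1 / δ) with hΛ
  have hlog : 0 ≤ Real.log (1 / δ) := Real.log_nonneg (by rw [le_div_iff₀ h0]; linarith)
  have hΛ1 : 1 ≤ Λ := by linarith
  have hinv : 1 ≤ 1 / δ := by rw [le_div_iff₀ h0]; linarith
  obtain ⟨p, hp, hmp, hp2⟩ := Nat.exists_prime_lt_and_le_two_mul (Nat.ceil (32 * Λ / δ)) (by
    have : 0 < Nat.ceil (32 * Λ / δ) := Nat.ceil_pos.2 (by positivity)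
    omega)
  have hp1 : 1 ≤ p := hp.one_lt.le
  have : NeZero p := ⟨hp.pos.ne'⟩
  have hpr : 32 * Λ / δ ≤ p := (Nat.le_ceil _).trans (by exact_mod_cast hmp.le)
  have hpr2 : (p : ℝ) ≤ 66 * Λ / δ := by
    have h2 : (p : ℝ) ≤ 2 * (Nat.ceil (32 * Λ / δ) : ℕ) := by exact_mod_cast hp2
    have h3 : ((Nat.ceil (32 * Λ / δ) : ℕ) : ℝ) < 32 * Λ / δ + 1 :=
      Nat.ceil_lt_add_one (by positivity)
    have h4 : 1 ≤ Λ * (1 / δ) := by nlinarith
    have h5 : 66 * Λ / δ = 2 * (32 * Λ / δ + Λ * (1 / δ)) := by ring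
    linarith
  set r := 2 * (2 * p) + 4 with hr
  set h := 3 * r with hh
  obtain ⟨n0, hn0⟩ := t_EXl p (2 * h) r (by omega)
  set A := (8 * (6 * 2 ^ p)) ^ (2 * h) with hA
  have hA1 : 1 ≤ A := Nat.one_le_pow _ _ (by positivity)
  refine ⟨2 * p, A * (4 * (h + 1)), n0 + 1, by omega, Nat.mul_pos hA1 (by omega), ?_, ?_⟩
  · push_cast
    have h5 : 132 * Λ / δ = 2 * (66 * Λ / δ) := by ring
    linarith
  · intro n hn
    have hn1 : 1 ≤ n := by omega
    obtain ⟨φ, B, hB, hsp, hgi⟩ := hn0 n (by omega)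
    have hφ := phi_inj' (fun S hS hS2 => hgi S hS (hS2.trans (by omega)))
    set K := Nat.ceil (δ * (n * p) / 2) with hK
    have hKr : δ * (n * p) / 2 ≤ (K : ℝ) := Nat.le_ceil _
    obtain ⟨s, hs⟩ := t_SHl n p p 2 K hp1 φ B
      (num_union n p K δ Λ h0 h1 rfl hn1 hpr hpr2 hKr)
    have hlen := length_theGame φ B s
    have hlen2 : n * p ≤ 2 * (theGame φ B s).length := by
      rw [hlen]
      calc n * p ≤ (2 * (n - B.card)) * p := Nat.mul_le_mul_right _ (by omega)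
        _ = _ := by ring
    refine ⟨theGame φ B s, twoToOne_theGame φ B s ?_, simple_theGame φ B s hφ, ?_, ?_, ?_⟩
    · rw [hlen] at hlen2
      have : 0 < n * p := Nat.mul_pos hn1 hp1
      omega
    · have h2 : (theGame φ B s).length ≤ n * p := by
        rw [hlen]
        exact Nat.mul_le_mul_right _ (Nat.sub_le _ _)
      calc 2 * (theGame φ B s).length ≤ 2 * (n * p) := Nat.mul_le_mul_left _ h2
        _ = 2 * p * n := by ring
    · intro x y
      have h2 := numSat_lt φ B s hs x y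
      have h3 : (numSat (theGame φ B s) x y : ℝ) < δ * (n * p) / 2 := Nat.lt_ceil.1 h2
      have h4 : ((n * p : ℕ) : ℝ) ≤ ((2 * (theGame φ B s).length : ℕ) : ℝ) := by
        exact_mod_cast hlen2
      push_cast at h4
      nlinarith
    · -- local consistency
      have hLO := t_LO (t_XT t_WD t_WI) t_CL (Fin n ⊕ Fin n) {e : Fin n × Fin p // e.1 ∉ B}
        (ZMod p × Fin 2) (gameGraph (d := 2) φ B s) r h (n / A) (n / (A * (4 * (h + 1))))
        (by omega) (by omega) (gameGraph_surj' (by norm_num) φ B s)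
        (t_MX n p p 2 hp le_rfl le_rfl φ B s)
        (fun S hS hSr => lt_of_le_of_lt (ein_le' φ B s S) (hgi S hS hSr))
        (fun S hS => (ein_le' φ B s S).trans (hsp S (by
          calc A * S.card ≤ A * (n / A) := Nat.mul_le_mul_left _ hS
            _ ≤ n := Nat.mul_div_le _ _)))
        (by
          rw [← Nat.div_div_eq_div_mul]
          exact Nat.mul_div_le _ _)
      obtain ⟨F, hF⟩ := hLO
      exact kconsistent_theGame φ B s F hF

/-- the main theorem -/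
theorem main (δ : ℝ) (h0 : 0 < δ) (h1 : δ ≤ 1) :
    ∃ q : ℕ, (q : ℝ) ≤ 132 * (1 + Real.log (1 / δ)) / δ ∧
      ∃ c : ℝ, 0 < c ∧ ∃ N0 : ℕ, ∀ N : ℕ, N0 ≤ N → ∃ G : Game N q,
        TwoToOne G ∧ Simple G ∧ 2 * G.length ≤ q * N ∧
        (∀ x y, (numSat G x y : ℝ) ≤ δ * G.length) ∧ KConsistent G ⌊c * N⌋₊ ∧
        ∀ L, IsRefutation (cnf G) L → (2 : ℝ) ^ (c * N) ≤ L.length := by
  obtain ⟨q, Q, N0, hq, hQ, hq2, hG⟩ := exists_game δ h0 h1
  have hqr : (1 : ℝ) ≤ q := by exact_mod_cast hq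
  have hQr : (1 : ℝ) ≤ Q := by exact_mod_cast hQ
  refine ⟨q, hq2, 1 / (256 * Q ^ 2 * q), by positivity, N0 + Q * (2 * q + 8), fun N hN => ?_⟩
  obtain ⟨G, g1, g2, g3, g4, g5⟩ := hG N (by omega)
  have hQN : Q * (2 * q + 8) ≤ N := by omega
  have hk : 2 * q + 8 ≤ N / Q := (Nat.le_div_iff_mul_le (by omega)).2 (by linarith [mul_comm Q (2 * q + 8)])
  have hN1 : 1 ≤ N := le_trans (Nat.mul_pos (by omega) (by omega)) hQN
  have hNr : (1 : ℝ) ≤ N := by exact_mod_cast hN1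
  refine ⟨G, g1, g2, g3, g4, kConsistent_mono ?_ g5, fun L hL => ?_⟩
  · -- `⌊c N⌋ ≤ N / Q`
    rw [← Nat.floor_div_eq_div (K := ℝ)]
    apply Nat.floor_mono
    rw [one_div, inv_mul_eq_div]
    apply div_le_div_of_nonneg_left (by positivity) (by positivity)
    nlinarith [mul_le_mul hQr hqr (by norm_num) (by linarith : (0 : ℝ) ≤ Q)]
  · have h2 := size_of_consistent G hq hN1 g5 hk hL
    refine le_trans ?_ h2
    have h3 : (N : ℝ) / (2 * Q) ≤ ((N / Q : ℕ) : ℝ) := by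
      have h4 : N ≤ 2 * Q * (N / Q) := by
        have h5 := Nat.div_add_mod N Q
        have h6 := Nat.mod_lt N (show 0 < Q by omega)
        have h7 : Q ≤ Q * (N / Q) := Nat.le_mul_of_pos_right _ (by omega)
        nlinarith
      have h8 : (N : ℝ) ≤ ((2 * Q * (N / Q) : ℕ) : ℝ) := by exact_mod_cast h4
      push_cast at h8
      rw [div_le_iff₀ (by positivity)]
      linarith
    have h4 : 1 / (256 * Q ^ 2 * q) * (N : ℝ) ≤ ((N / Q : ℕ) : ℝ) ^ 2 / (64 * N * q) := by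
      have h5 : ((N : ℝ) / (2 * Q)) ^ 2 ≤ ((N / Q : ℕ) : ℝ) ^ 2 :=
        pow_le_pow_left₀ (by positivity) h3 2
      calc 1 / (256 * Q ^ 2 * q) * (N : ℝ) = ((N : ℝ) / (2 * Q)) ^ 2 / (64 * N * q) := by
            field_simp
            ring
        _ ≤ _ := div_le_div_of_nonneg_right h5 (by positivity)
    rw [Real.rpow_def_of_pos (by norm_num)]
    apply Real.exp_le_exp.2
    have h5 : Real.log 2 ≤ 1 := by
      have := Real.log_two_lt_d9
      linarith
    have h6 : (0 : ℝ) ≤ 1 / (256 * Q ^ 2 * q) * (N : ℝ) := by positivity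
    nlinarith

end Pool.Agent.K6.H21.LC
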