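import Mathlib
import Pool.Agent.K6.H21.LC.Defs

/-!
# Resolution: from locally consistent partial assignments to lower bounds for the size

The size-width argument of Ben-Sasson and Wigderson, carried out with families of partial
assignments: if a CNF has a family of partial assignments of level `W` (closed under restriction,
every member with less than `W` decisions can be extended to each further variable, no member
falsifies a clause), then every resolution refutation has at least `(1 - d / (2 n))^(-k)` clauses,
`n` the number of variables, `d + k < W`.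
-/

open Finset

namespace Pool.Agent.K6.H21.LC

variable {X : Type} [DecidableEq X]

/-- the opposite literal -/
def op (l : X × Bool) : X × Bool := (l.1, !l.2)

@[simp] theorem op_op (l : X × Bool) : op (op l) = l := by simp [op]

theorem op_inj : Function.Injective (op : X × Bool → X × Bool) := by
  intro a b h
  have := congrArg op h
  simpa using this

/-- all literals of `C` are falsified by `α` -/
def Fals (α C : Finset (X × Bool)) : Prop := ∀ l ∈ C, op l ∈ α

/-- a family of level `W` over the partial assignment `ρ` -/
structure Fam (F : Set (Finset (X × Bool))) (ρ : Finset (X × Bool)) (W : ℕ)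
    (H : Set (Finset (X × Bool))) : Prop where
  empty : ∅ ∈ H
  sub : ∀ α ∈ H, ∀ β ⊆ α, β ∈ H
  dis : ∀ α ∈ H, ∀ l ∈ α, l ∉ ρ ∧ op l ∉ ρ
  ext : ∀ α ∈ H, α.card < W → ∀ x, (x, true) ∉ ρ → (x, false) ∉ ρ → ∃ b, insert (x, b) α ∈ H
  ax : ∀ C ∈ F, ∀ α ∈ H, ¬ Fals (α ∪ ρ) C

/-- the part of a clause whose variables are not assigned by `ρ` -/
def un (ρ C : Finset (X × Bool)) : Finset (X × Bool) := C.filter fun l => l ∉ ρ ∧ op l ∉ ρ

/-- the clauses which are not satisfied by `ρ` and whose unassigned part has more than `d`
literals -/
def fat (ρ : Finset (X × Bool)) (d : ℕ) (M : Finset (Finset (X × Bool))) :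
    Finset (Finset (X × Bool)) :=
  M.filter fun C => (∀ l ∈ C, l ∉ ρ) ∧ d < (un ρ C).card

theorem mem_fat {ρ : Finset (X × Bool)} {d : ℕ} {M : Finset (Finset (X × Bool))}
    {C : Finset (X × Bool)} : C ∈ fat ρ d M ↔ C ∈ M ∧ (∀ l ∈ C, l ∉ ρ) ∧ d < (un ρ C).card := by
  simp [fat]

/-- no fat clauses: contradiction -/
theorem narrow {F : Set (Finset (X × Bool))} {L : List (Finset (X × Bool))}
    (hL : IsRefutation F L) {ρ : Finset (X × Bool)} (hρ : ∀ l ∈ ρ, op l ∉ ρ) {W d : ℕ}
    {H : Set (Finset (X × Bool))} (hH : Fam F ρ W H) (hdW : d < W)
    (hfat : fat ρ d L.toFinset = ∅) : False := by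
  have key : ∀ i, ∀ hi : i < L.length, ∀ α ∈ H, α.card ≤ d → ¬ Fals (α ∪ ρ) L[i] := by
    intro i
    induction i using Nat.strong_induction_on with
    | _ i ih =>
      intro hi α hα hαd hfals
      rcases hL.2 i hi with h | ⟨j, k, hj, hk, x, h1, h2⟩
      · exact hH.ax _ h α hα hfals
      · -- the two premises
        have step : ∀ b : Bool, ∀ β : Finset (X × Bool), β ∈ H → α ⊆ β → (x, b) ∈ β ∪ ρ →
            False := by
          intro b β hβ hαβ hxb
          -- the premise which is falsified
          obtain ⟨m, hm, hml, hmf⟩ : ∃ m, ∃ hm : m < i, ∃ hml : m < L.length,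
              Fals (β ∪ ρ) L[m] := by
            cases b with
            | true =>
              refine ⟨k, hk, by omega, fun l hl => ?_⟩
              rcases Finset.mem_insert.1 (h2 hl) with h | h
              · rw [h]; simpa [op] using hxb
              · exact Finset.union_subset_union_left hαβ (hfals l h)
            | false =>
              refine ⟨j, hj, by omega, fun l hl => ?_⟩
              rcases Finset.mem_insert.1 (h1 hl) with h | h
              · rw [h]; simpa [op] using hxb
              · exact Finset.union_subset_union_left hαβ (hfals l h)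
          -- it is not satisfied by `ρ`
          have hns : ∀ l ∈ L[m], l ∉ ρ := by
            intro l hl hlρ
            rcases Finset.mem_union.1 (hmf l hl) with h | h
            · have := (hH.dis β hβ _ h).2
              rw [op_op] at this
              exact this hlρ
            · exact hρ l hlρ h
          have hnf : L[m] ∉ fat ρ d L.toFinset := by rw [hfat]; exact Finset.notMem_empty _
          have hcard : (un ρ L[m]).card ≤ d := by
            by_contra hcon
            apply hnf
            rw [mem_fat]
            exact ⟨List.mem_toFinset.2 (List.getElem_mem hml), hns, not_le.1 hcon⟩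
          -- the restriction of `β`
          have hsub : (un ρ L[m]).image op ⊆ β := by
            intro l hl
            obtain ⟨l', hl', rfl⟩ := Finset.mem_image.1 hl
            rw [un, Finset.mem_filter] at hl'
            rcases Finset.mem_union.1 (hmf l' hl'.1) with h | h
            · exact h
            · exact absurd h hl'.2.2
          refine ih m hm hml _ (hH.sub β hβ _ hsub) (Finset.card_image_le.trans hcard) ?_
          intro l hl
          rw [Finset.mem_union]
          by_cases h : op l ∈ ρ
          · exact Or.inr h
          · left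
            apply Finset.mem_image_of_mem
            rw [un, Finset.mem_filter]
            exact ⟨hl, hns l hl, h⟩
        by_cases ht : (x, true) ∈ ρ
        · exact step true α hα Subset.rfl (Finset.mem_union_right _ ht)
        · by_cases hf : (x, false) ∈ ρ
          · exact step false α hα Subset.rfl (Finset.mem_union_right _ hf)
          · obtain ⟨b, hb⟩ := hH.ext α hα (by omega) x ht hf
            exact step b _ hb (Finset.subset_insert _ _)
              (Finset.mem_union_left _ (Finset.mem_insert_self _ _))
  obtain ⟨i, hi, h0⟩ := List.getElem_of_mem hL.1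
  refine key i hi ∅ hH.empty (by simp) ?_
  rw [h0]
  intro l hl
  exact absurd hl (Finset.notMem_empty _)

/-- the number of unassigned variables -/
def free [Fintype X] (ρ : Finset (X × Bool)) : Finset X :=
  univ.filter fun x => (x, true) ∉ ρ ∧ (x, false) ∉ ρ

theorem mem_free [Fintype X] {ρ : Finset (X × Bool)} {l : X × Bool} :
    l.1 ∈ free ρ ↔ l ∉ ρ ∧ op l ∉ ρ := by
  rcases l with ⟨x, b⟩
  cases b <;> simp [free, op, and_comm]

theorem free_insert_lt [Fintype X] {ρ : Finset (X × Bool)} {l : X × Bool} (hl : l.1 ∈ free ρ) :
    (free (insert l ρ)).card < (free ρ).card := by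
  apply Finset.card_lt_card
  rw [Finset.ssubset_iff_of_subset]
  · refine ⟨l.1, hl, ?_⟩
    rw [mem_free]
    simp
  · intro x hx
    simp only [free, Finset.mem_filter, Finset.mem_univ, true_and, Finset.mem_insert, not_or] at hx ⊢
    exact ⟨hx.1.2, hx.2.2⟩

/-- some literal occurs in many fat clauses -/
theorem exists_literal [Fintype X] {ρ : Finset (X × Bool)} {d : ℕ}
    {M : Finset (Finset (X × Bool))} (hne : (fat ρ d M).Nonempty) :
    ∃ l : X × Bool, l.1 ∈ free ρ ∧
      d * (fat ρ d M).card ≤ 2 * Fintype.card X * ((fat ρ d M).filter fun C => l ∈ C).card := by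
  by_contra hcon
  push Not at hcon
  set P : Finset (X × Bool) := univ.filter fun l => l.1 ∈ free ρ with hP
  have h1 : (d + 1) * (fat ρ d M).card ≤ ∑ C ∈ fat ρ d M, (un ρ C).card := by
    rw [mul_comm, ← smul_eq_mul, ← Finset.sum_const]
    exact Finset.sum_le_sum fun C hC => (mem_fat.1 hC).2.2
  have h2 : ∑ C ∈ fat ρ d M, (un ρ C).card = ∑ l ∈ P, ((fat ρ d M).filter fun C => l ∈ C).card := by
    have e1 : ∀ C : Finset (X × Bool), (un ρ C).card = ∑ l ∈ P, if l ∈ C then 1 else 0 := by
      intro C
      rw [← Finset.card_filter]
      congr 1
      ext l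
      simp only [un, hP, Finset.mem_filter, Finset.mem_univ, true_and, mem_free]
      tauto
    simp only [e1]
    rw [Finset.sum_comm]
    refine Finset.sum_congr rfl fun l _ => ?_
    rw [Finset.card_filter]
  have hPc : P.card ≤ 2 * Fintype.card X := by
    refine (Finset.card_le_univ _).trans (le_of_eq ?_)
    rw [Fintype.card_prod, Fintype.card_bool, mul_comm]
  have hpos : 0 < (fat ρ d M).card := Finset.card_pos.2 hne
  have h3 : 2 * Fintype.card X * ∑ l ∈ P, ((fat ρ d M).filter fun C => l ∈ C).card ≤
      ∑ _l ∈ P, d * (fat ρ d M).card := by
    rw [Finset.mul_sum]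
    refine Finset.sum_le_sum fun l hl => ?_
    rw [hP, Finset.mem_filter] at hl
    exact (hcon l hl.2).le
  rw [Finset.sum_const, smul_eq_mul] at h3
  rcases Nat.eq_zero_or_pos (Fintype.card X) with h0 | h0
  · have : P.card = 0 := by omega
    rw [Finset.card_eq_zero] at this
    rw [this, Finset.sum_empty] at h2
    rw [h2] at h1
    have : 0 < (d + 1) * (fat ρ d M).card := Nat.mul_pos (by omega) hpos
    omega
  · have h4 : 2 * Fintype.card X * ((d + 1) * (fat ρ d M).card) ≤
        2 * Fintype.card X * (d * (fat ρ d M).card) := by
      calc 2 * Fintype.card X * ((d + 1) * (fat ρ d M).card)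
          ≤ 2 * Fintype.card X * ∑ l ∈ P, ((fat ρ d M).filter fun C => l ∈ C).card := by
            rw [← h2]; exact Nat.mul_le_mul_left _ h1
        _ ≤ P.card * (d * (fat ρ d M).card) := h3
        _ ≤ _ := Nat.mul_le_mul_right _ hPc
    have h5 := Nat.le_of_mul_le_mul_left h4 (by omega)
    nlinarith

theorem fat_insert_subset {ρ : Finset (X × Bool)} {d : ℕ} {M : Finset (Finset (X × Bool))}
    (l : X × Bool) : fat (insert l ρ) d M ⊆ fat ρ d M := by
  intro C hC
  rw [mem_fat] at hC ⊢
  refine ⟨hC.1, fun l' hl' h => hC.2.1 l' hl' (Finset.mem_insert_of_mem h), ?_⟩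
  refine lt_of_lt_of_le hC.2.2 (Finset.card_le_card ?_)
  intro l' hl'
  simp only [un, Finset.mem_filter, Finset.mem_insert, not_or] at hl' ⊢
  exact ⟨hl'.1, hl'.2.1.2, hl'.2.2.2⟩

theorem size_aux [Fintype X] {F : Set (Finset (X × Bool))} {L : List (Finset (X × Bool))}
    (hL : IsRefutation F L) {w d : ℕ} (hw : ∀ C ∈ F, C.card ≤ w) {t : ℝ} (ht0 : 0 ≤ t)
    (ht : 1 - (d : ℝ) / (2 * Fintype.card X) ≤ t) (m : ℕ) :
    ∀ (ρ : Finset (X × Bool)) (W k : ℕ) (H : Set (Finset (X × Bool))), (∀ l ∈ ρ, op l ∉ ρ) →
      Fam F ρ W H → (free ρ).card = m → w + k < W → d + k < W →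
      ((fat ρ d L.toFinset).card : ℝ) * t ^ k < 1 → False := by
  induction m using Nat.strong_induction_on with
  | _ m ih =>
    intro ρ W k H hρ hH hm hwW hdW hfat
    rcases (fat ρ d L.toFinset).eq_empty_or_nonempty with h0 | hne
    · exact narrow hL hρ hH (by omega) h0
    · have hk : k ≠ 0 := by
        intro hk
        rw [hk, pow_zero, mul_one] at hfat
        have : 1 ≤ (fat ρ d L.toFinset).card := Finset.card_pos.2 hne
        have : (1 : ℝ) ≤ (fat ρ d L.toFinset).card := by exact_mod_cast this
        linarith
      obtain ⟨l, hl, hlc⟩ := exists_literal hne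
      have hlρ := mem_free.1 hl
      by_cases hlH : {l} ∈ H
      · -- set `l` true
        obtain ⟨k', rfl⟩ := Nat.exists_eq_succ_of_ne_zero hk
        have hlt := free_insert_lt hl
        rw [hm] at hlt
        refine ih _ hlt (insert l ρ) (W - 1) k' {α | insert l α ∈ H ∧ ∀ l' ∈ α, l'.1 ≠ l.1} ?_ ?_
          rfl (by omega) (by omega) ?_
        · intro l' hl' hop
          rcases Finset.mem_insert.1 hl' with h | h
          · rw [h] at hop
            rcases Finset.mem_insert.1 hop with h2 | h2
            · have := congrArg Prod.snd h2
              simp [op] at this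
            · exact hlρ.2 h2
          · rcases Finset.mem_insert.1 hop with h2 | h2
            · apply hlρ.2
              rw [← h2, op_op]
              exact h
            · exact hρ l' h h2
        · refine ⟨?_, ?_, ?_, ?_, ?_⟩
          · refine ⟨?_, fun l' hl' => absurd hl' (Finset.notMem_empty _)⟩
            simpa using hlH
          · rintro α ⟨hα1, hα2⟩ β hβ
            exact ⟨hH.sub _ hα1 _ (Finset.insert_subset_insert _ hβ), fun l' hl' => hα2 l' (hβ hl')⟩
          · rintro α ⟨hα1, hα2⟩ l' hl'
            have h3 := hH.dis _ hα1 l' (Finset.mem_insert_of_mem hl')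
            constructor
            · rw [Finset.mem_insert, not_or]
              exact ⟨fun h => hα2 l' hl' (by rw [h]), h3.1⟩
            · rw [Finset.mem_insert, not_or]
              exact ⟨fun h => hα2 l' hl' (by rw [← h]; rfl), h3.2⟩
          · rintro α ⟨hα1, hα2⟩ hαW x hx1 hx2
            rw [Finset.mem_insert, not_or] at hx1 hx2
            have hxl : x ≠ l.1 := by
              rintro rfl
              rcases l with ⟨x, b⟩
              cases b with
              | true => exact hx1.1 rfl
              | false => exact hx2.1 rfl
            obtain ⟨b, hb⟩ := hH.ext _ hα1 (by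
              have := Finset.card_insert_le l α
              omega) x hx1.2 hx2.2
            refine ⟨b, ?_, ?_⟩
            · rw [Finset.insert_comm]; exact hb
            · intro l' hl'
              rcases Finset.mem_insert.1 hl' with h | h
              · rw [h]; exact hxl
              · exact hα2 l' h
          · rintro C hC α ⟨hα1, hα2⟩ hfals
            refine hH.ax C hC _ hα1 ?_
            intro l' hl'
            have := hfals l' hl'
            simp only [Finset.mem_union, Finset.mem_insert] at this ⊢
            tauto
        · have hsub : fat (insert l ρ) d L.toFinset ⊆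
              (fat ρ d L.toFinset).filter fun C => ¬ l ∈ C := by
            intro C hC
            rw [Finset.mem_filter]
            exact ⟨fat_insert_subset l hC,
              fun h => (mem_fat.1 hC).2.1 l h (Finset.mem_insert_self _ _)⟩
          have hsplit := Finset.card_filter_add_card_filter_not (s := fat ρ d L.toFinset)
            (fun C => l ∈ C)
          have hc1 := Finset.card_le_card hsub
          set A := (fat ρ d L.toFinset).card with hA
          set B := (fat (insert l ρ) d L.toFinset).card with hB
          set C1 := ((fat ρ d L.toFinset).filter fun C => l ∈ C).card with hC1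
          have hX : 0 < Fintype.card X := Fintype.card_pos_iff.2 ⟨l.1⟩
          have hXr : (0 : ℝ) < Fintype.card X := by exact_mod_cast hX
          have hAB : (B : ℝ) ≤ A - C1 := by
            have : B + C1 ≤ A := by omega
            have : (B : ℝ) + C1 ≤ A := by exact_mod_cast this
            linarith
          have hC1r : (d : ℝ) / (2 * Fintype.card X) * A ≤ C1 := by
            rw [div_mul_eq_mul_div, div_le_iff₀ (by positivity)]
            have : ((d * A : ℕ) : ℝ) ≤ ((2 * Fintype.card X * C1 : ℕ) : ℝ) := by exact_mod_cast hlc
            push_cast at this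
            linarith
          have hBA : (B : ℝ) ≤ A * t := by
            have h1 : (A : ℝ) * (1 - (d : ℝ) / (2 * Fintype.card X)) ≤ A * t :=
              mul_le_mul_of_nonneg_left ht (by positivity)
            linarith
          calc (B : ℝ) * t ^ k' ≤ (A * t) * t ^ k' :=
                mul_le_mul_of_nonneg_right hBA (pow_nonneg ht0 _)
            _ = A * t ^ (k' + 1) := by ring
            _ < 1 := hfat
      · -- `l` is not possible: set `l` false
        have hl' : (op l).1 ∈ free ρ := hl
        have hlt := free_insert_lt hl'
        rw [hm] at hlt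
        refine ih _ hlt (insert (op l) ρ) W k {α | α ∈ H ∧ ∀ l' ∈ α, l'.1 ≠ l.1} ?_ ?_
          rfl hwW hdW ?_
        · intro l' hl' hop
          rcases Finset.mem_insert.1 hl' with h | h
          · rw [h, op_op] at hop
            rcases Finset.mem_insert.1 hop with h2 | h2
            · have := congrArg Prod.snd h2
              simp [op] at this
            · exact hlρ.1 h2
          · rcases Finset.mem_insert.1 hop with h2 | h2
            · apply hlρ.1
              rw [← op_inj h2]
              exact h
            · exact hρ l' h h2
        · refine ⟨?_, ?_, ?_, ?_, ?_⟩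
          · exact ⟨hH.empty, fun l' hl' => absurd hl' (Finset.notMem_empty _)⟩
          · rintro α ⟨hα1, hα2⟩ β hβ
            exact ⟨hH.sub _ hα1 _ hβ, fun l' hl' => hα2 l' (hβ hl')⟩
          · rintro α ⟨hα1, hα2⟩ l' hl'
            have h3 := hH.dis _ hα1 l' hl'
            constructor
            · rw [Finset.mem_insert, not_or]
              exact ⟨fun h => hα2 l' hl' (by rw [h]; rfl), h3.1⟩
            · rw [Finset.mem_insert, not_or]
              exact ⟨fun h => hα2 l' hl' (by rw [op_inj h]), h3.2⟩
          · rintro α ⟨hα1, hα2⟩ hαW x hx1 hx2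
            rw [Finset.mem_insert, not_or] at hx1 hx2
            have hxl : x ≠ l.1 := by
              rintro rfl
              rcases l with ⟨x, b⟩
              cases b with
              | true => exact hx2.1 rfl
              | false => exact hx1.1 rfl
            obtain ⟨b, hb⟩ := hH.ext _ hα1 hαW x hx1.2 hx2.2
            refine ⟨b, hb, ?_⟩
            intro l' hl'
            rcases Finset.mem_insert.1 hl' with h | h
            · rw [h]; exact hxl
            · exact hα2 l' h
          · rintro C hC α ⟨hα1, hα2⟩ hfals
            have hsub : α ∩ C.image op ⊆ α := Finset.inter_subset_left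
            have hα' := hH.sub _ hα1 _ hsub
            have hcard : (α ∩ C.image op).card < W := by
              have h1 := Finset.card_le_card (Finset.inter_subset_right : α ∩ C.image op ⊆ C.image op)
              have h2 := Finset.card_image_le (s := C) (f := op)
              have h3 := hw C hC
              omega
            have hx1 : (l.1, true) ∉ ρ ∧ (l.1, false) ∉ ρ := by
              rcases l with ⟨x, b⟩
              cases b with
              | true => exact hlρ
              | false => exact ⟨hlρ.2, hlρ.1⟩
            obtain ⟨b, hb⟩ := hH.ext _ hα' hcard l.1 hx1.1 hx1.2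
            have hbl : (l.1, b) = op l := by
              by_contra hcon
              have hb2 : (l.1, b) = l := by
                rcases l with ⟨x, b'⟩
                cases b <;> cases b' <;> simp_all [op]
              apply hlH
              rw [hb2] at hb
              exact hH.sub _ hb _ (Finset.singleton_subset_iff.2 (Finset.mem_insert_self _ _))
            rw [hbl] at hb
            refine hH.ax C hC _ hb ?_
            intro l' hl'
            have := hfals l' hl'
            simp only [Finset.mem_union, Finset.mem_insert, Finset.mem_inter] at this ⊢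
            have hh : op l' ∈ C.image op := Finset.mem_image_of_mem _ hl'
            tauto
        · refine lt_of_le_of_lt ?_ hfat
          refine mul_le_mul_of_nonneg_right ?_ (pow_nonneg ht0 _)
          exact_mod_cast Finset.card_le_card (fat_insert_subset (op l))

/-- the lower bound for the size of a resolution refutation -/
theorem size_bound [Fintype X] {F : Set (Finset (X × Bool))} {L : List (Finset (X × Bool))}
    (hL : IsRefutation F L) {w : ℕ} (hw : ∀ C ∈ F, C.card ≤ w) {W d k : ℕ}
    {H : Set (Finset (X × Bool))} (hH : Fam F ∅ W H) (h1 : w + k < W) (h2 : d + k < W) :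
    Real.exp ((d : ℝ) * k / (2 * Fintype.card X)) ≤ L.length := by
  by_contra hcon
  push Not at hcon
  have ht : 1 - (d : ℝ) / (2 * Fintype.card X) ≤ Real.exp (-((d : ℝ) / (2 * Fintype.card X))) := by
    have := Real.add_one_le_exp (-((d : ℝ) / (2 * Fintype.card X)))
    linarith
  refine size_aux hL hw (d := d) (Real.exp_pos _).le ht _ ∅ W k H (by simp) hH rfl h1 h2 ?_
  have hc : ((fat ∅ d L.toFinset).card : ℝ) ≤ L.length := by
    have h3 : (fat ∅ d L.toFinset).card ≤ L.toFinset.card :=
      Finset.card_le_card fun C hC => (mem_fat.1 hC).1
    have h4 := L.toFinset_card_le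
    exact_mod_cast h3.trans h4
  rw [← Real.exp_nat_mul]
  calc ((fat ∅ d L.toFinset).card : ℝ) * Real.exp (k * -((d : ℝ) / (2 * Fintype.card X)))
      ≤ L.length * Real.exp (k * -((d : ℝ) / (2 * Fintype.card X))) :=
        mul_le_mul_of_nonneg_right hc (Real.exp_pos _).le
    _ < Real.exp ((d : ℝ) * k / (2 * Fintype.card X)) *
        Real.exp (k * -((d : ℝ) / (2 * Fintype.card X))) :=
        mul_lt_mul_of_pos_right hcon (Real.exp_pos _)
    _ = 1 := by
        rw [← Real.exp_add, ← Real.exp_zero]
        congr 1
        ring

end Pool.Agent.K6.H21.LC
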