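import Pool.Agent.K6.H21.LC.Cons

/-!
# Upper bounds: games of value one pass all tests; the test of level `2 N` is exact; resolution is
complete, with refutations of size `2 * 4 ^ (number of variables)`
-/

open Finset

namespace Pool.Agent.K6.H21.LC

variable {N q : ℕ}

/-- games of value one are strongly `k`-consistent for all `k` -/
theorem kConsistent_of_sat (G : Game N q) (h : ∃ x y, numSat G x y = G.length) (k : ℕ) :
    KConsistent G k := by
  obtain ⟨x, y, hxy⟩ := h
  rw [numSat, List.length_filter_eq_length_iff] at hxy
  refine ⟨{f | ∀ w, f w = none ∨ f w = some (Sum.elim x y w)}, ⟨fun _ => none, fun _ => Or.inl rfl⟩,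
    ?_, ?_, ?_⟩
  · intro f hf g hg w
    rcases hg w with h | h
    · exact Or.inl h
    · rw [h]; exact hf w
  · intro f hf e he a b ha hb
    have h1 := hxy e he
    rw [decide_eq_true_eq] at h1
    have h2 := (hf (Sum.inl e.1)).resolve_left (by rw [ha]; simp)
    have h3 := (hf (Sum.inr e.2.1)).resolve_left (by rw [hb]; simp)
    rw [ha] at h2
    rw [hb] at h3
    have h2' : a = x e.1 := by simpa using h2
    have h3' : b = y e.2.1 := by simpa using h3
    rw [h2', h3', h1]
  · intro f hf _ w
    refine ⟨fun w' => some (Sum.elim x y w'), fun w' => Or.inr rfl, ?_, by simp⟩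
    intro w'
    rcases hf w' with h | h
    · exact Or.inl h
    · exact Or.inr h.symm

/-- the test of level `2 N` is exact -/
theorem sat_of_kConsistent (G : Game N q) (h : KConsistent G (2 * N)) :
    ∃ x y, numSat G x y = G.length := by
  classical
  obtain ⟨F, hF0, -, hF2, hF3⟩ := h
  -- a member with a domain of maximal size
  have hbdd : ∃ m, ∃ f ∈ F, (univ.filter fun w => f w ≠ none).card = m ∧
      ∀ g ∈ F, (univ.filter fun w => g w ≠ none).card ≤ m := by
    by_contra hcon
    push Not at hcon
    have h1 : ∀ m : ℕ, ∃ f ∈ F, m ≤ (univ.filter fun w => f w ≠ none).card := by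
      intro m
      induction m with
      | zero =>
        obtain ⟨f, hf⟩ := hF0
        exact ⟨f, hf, Nat.zero_le _⟩
      | succ m ih =>
        obtain ⟨f, hf, hfm⟩ := ih
        obtain ⟨g, hg, hgm⟩ := hcon _ f hf rfl
        exact ⟨g, hg, by omega⟩
    obtain ⟨f, -, hf⟩ := h1 (Fintype.card (Fin N ⊕ Fin N) + 1)
    have := Finset.card_le_univ (univ.filter fun w => f w ≠ none)
    omega
  obtain ⟨m, f, hf, hfm, hmax⟩ := hbdd
  have hall : ∀ w, f w ≠ none := by
    by_contra hcon
    push Not at hcon
    obtain ⟨w, hw⟩ := hcon
    have hlt : (univ.filter fun w => f w ≠ none).card < 2 * N := by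
      have h1 : (univ.filter fun w => f w ≠ none) ⊂ (univ : Finset (Fin N ⊕ Fin N)) := by
        rw [Finset.ssubset_univ_iff]
        intro h
        have := Finset.mem_univ w
        rw [← h, Finset.mem_filter] at this
        exact this.2 hw
      have h2 := Finset.card_lt_card h1
      rw [Finset.card_univ, Fintype.card_sum, Fintype.card_fin] at h2
      omega
    obtain ⟨g, hg, hgf, hgw⟩ := hF3 f hf hlt w
    have h3 : insert w (univ.filter fun w => f w ≠ none) ⊆ univ.filter fun w => g w ≠ none := by
      intro w' hw'
      rw [Finset.mem_filter]
      refine ⟨Finset.mem_univ _, ?_⟩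
      rcases Finset.mem_insert.1 hw' with h | h
      · rw [h]; exact hgw
      · rw [Finset.mem_filter] at h
        rw [(hgf w').resolve_left h.2]
        exact h.2
    have h4 := Finset.card_le_card h3
    rw [Finset.card_insert_of_notMem (by simp [hw])] at h4
    have h5 := hmax g hg
    omega
  have hsome : ∀ w, ∃ a, f w = some a := fun w => Option.ne_none_iff_exists'.1 (hall w)
  choose z hz using hsome
  refine ⟨fun u => z (Sum.inl u), fun u => z (Sum.inr u), ?_⟩
  rw [numSat, List.length_filter_eq_length_iff]
  intro e he
  rw [decide_eq_true_eq]
  exact hF2 f hf e he _ _ (hz _) (hz _)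

/-! ### Completeness of resolution -/

section

variable {X : Type} [DecidableEq X]

/-- every clause of the list is justified -/
def IsDer (F : Set (Finset (X × Bool))) (L : List (Finset (X × Bool))) : Prop :=
  ∀ (i : ℕ) (hi : i < L.length), L[i] ∈ F ∨
    ∃ (j k : ℕ) (hj : j < i) (hk : k < i) (x : X),
      L[j] ⊆ insert (x, true) L[i] ∧ L[k] ⊆ insert (x, false) L[i]

theorem isDer_append {F : Set (Finset (X × Bool))} {L T : List (Finset (X × Bool))}
    (hL : IsDer F L) (hT : ∀ C ∈ T, C ∈ F ∨ ∃ A ∈ L, ∃ B ∈ L, ∃ x : X,
      A ⊆ insert (x, true) C ∧ B ⊆ insert (x, false) C) : IsDer F (L ++ T) := by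
  intro i hi
  rw [List.length_append] at hi
  by_cases h : i < L.length
  · rcases hL i h with h1 | ⟨j, k, hj, hk, x, h1, h2⟩
    · left
      rw [List.getElem_append_left h]
      exact h1
    · right
      refine ⟨j, k, hj, hk, x, ?_, ?_⟩
      · rw [List.getElem_append_left h, List.getElem_append_left (by omega)]
        exact h1
      · rw [List.getElem_append_left h, List.getElem_append_left (by omega)]
        exact h2
  · have h' : i - L.length < T.length := by omega
    rcases hT _ (List.getElem_mem h') with h1 | ⟨A, hA, B, hB, x, h1, h2⟩
    · left
      rw [List.getElem_append_right (by omega)]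
      exact h1
    · right
      obtain ⟨j, hj, rfl⟩ := List.getElem_of_mem hA
      obtain ⟨k, hk, rfl⟩ := List.getElem_of_mem hB
      refine ⟨j, k, by omega, by omega, x, ?_, ?_⟩
      · rw [List.getElem_append_left hj, List.getElem_append_right (by omega)]
        exact h1
      · rw [List.getElem_append_left hk, List.getElem_append_right (by omega)]
        exact h2

/-- not both literals of a variable -/
def NT (C : Finset (X × Bool)) : Prop := ∀ x, ¬ ((x, true) ∈ C ∧ (x, false) ∈ C)

theorem nt_injOn {C : Finset (X × Bool)} (hNT : NT C) :
    Set.InjOn Prod.fst (C : Set (X × Bool)) := by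
  rintro ⟨x, b⟩ hb ⟨x', b'⟩ hb' hxx
  simp only at hxx
  subst hxx
  rw [Finset.mem_coe] at hb hb'
  by_contra hne
  cases b with
  | true =>
    cases b' with
    | true => exact hne rfl
    | false => exact hNT x ⟨hb, hb'⟩
  | false =>
    cases b' with
    | true => exact hNT x ⟨hb', hb⟩
    | false => exact hne rfl

theorem resolution_complete [Fintype X] (F : Set (Finset (X × Bool)))
    (hF : ¬ ∃ v : X → Bool, Satisfies v F) :
    ∃ L, IsRefutation F L ∧ L.length ≤ 2 * 4 ^ Fintype.card X := by
  classical
  set n := Fintype.card X with hn
  have hcardall : Fintype.card (Finset (X × Bool)) = 4 ^ n := by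
    rw [Fintype.card_finset, Fintype.card_prod, Fintype.card_bool, mul_comm, pow_mul]
    norm_num [hn]
  set FL : Finset (Finset (X × Bool)) := univ.filter fun C => C ∈ F with hFL
  have key : ∀ m : ℕ, m ≤ n → ∃ L : List (Finset (X × Bool)), IsDer F L ∧
      (∀ C, C ∈ F → C ∈ L) ∧ (∀ C, NT C → n ≤ C.card + m → C ∈ L) ∧
      L.length ≤ FL.card + (univ.filter fun C : Finset (X × Bool) => n ≤ C.card + m).card := by
    intro m
    induction m with
    | zero =>
      intro _
      set T := (univ.filter fun C : Finset (X × Bool) => NT C ∧ n ≤ C.card).toList with hT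
      refine ⟨FL.toList ++ T, isDer_append ?_ ?_, ?_, ?_, ?_⟩
      · have hall : ∀ C ∈ FL.toList, C ∈ F := by
          intro C hC
          rw [Finset.mem_toList, hFL, Finset.mem_filter] at hC
          exact hC.2
        intro i hi
        exact Or.inl (hall _ (List.getElem_mem hi))
      · intro C hC
        rw [hT, Finset.mem_toList, Finset.mem_filter] at hC
        obtain ⟨-, hNT, hCc⟩ := hC
        -- the assignment which falsifies `C`
        have hF' := hF
        push Not at hF'
        have h1 := hF' fun x => decide ((x, false) ∈ C)
        unfold Satisfies at h1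
        push Not at h1
        obtain ⟨D, hD, hDC⟩ := h1
        -- all variables occur in `C`
        have hocc : ∀ x, (x, true) ∈ C ∨ (x, false) ∈ C := by
          intro x
          have h2 : C.image Prod.fst = univ := by
            apply Finset.eq_univ_of_card
            refine le_antisymm (Finset.card_le_univ _) ?_
            rw [Finset.card_image_of_injOn (nt_injOn hNT), ← hn]
            exact hCc
          have h3 : x ∈ C.image Prod.fst := by rw [h2]; exact Finset.mem_univ _
          obtain ⟨⟨x', b⟩, hb, hx'⟩ := Finset.mem_image.1 h3
          simp only at hx'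
          subst hx'
          cases b with
          | true => exact Or.inl hb
          | false => exact Or.inr hb
        have hsub : D ⊆ C := by
          rintro ⟨x, b⟩ hl
          have h2 := hDC _ hl
          simp only at h2
          cases b with
          | true =>
            rcases hocc x with h | h
            · exact h
            · exact absurd (by simpa using h) h2
          | false =>
            by_contra hcon
            apply h2
            simpa using hcon
        rcases isEmpty_or_nonempty X with hX | ⟨⟨x⟩⟩
        · left
          have h3 : D = C := by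
            have : Subsingleton (Finset (X × Bool)) := by
              constructor
              intro a b
              ext ⟨x, _⟩
              exact hX.elim x
            exact Subsingleton.elim _ _
          rw [← h3]
          exact hD
        · right
          have hDL : D ∈ FL.toList := by
            rw [Finset.mem_toList, hFL, Finset.mem_filter]
            exact ⟨Finset.mem_univ _, hD⟩
          exact ⟨D, hDL, D, hDL, x, hsub.trans (Finset.subset_insert _ _),
            hsub.trans (Finset.subset_insert _ _)⟩
      · intro C hC
        rw [List.mem_append]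
        left
        rw [Finset.mem_toList, hFL, Finset.mem_filter]
        exact ⟨Finset.mem_univ _, hC⟩
      · intro C h1 h2
        rw [List.mem_append]
        right
        rw [hT, Finset.mem_toList, Finset.mem_filter]
        exact ⟨Finset.mem_univ _, h1, by omega⟩
      · rw [List.length_append, Finset.length_toList, hT, Finset.length_toList]
        apply Nat.add_le_add_left
        apply Finset.card_le_card
        intro C hC
        rw [Finset.mem_filter] at hC ⊢
        exact ⟨hC.1, by omega⟩
    | succ m ih =>
      intro hm
      obtain ⟨L, hL1, hL2, hL3, hL4⟩ := ih (by omega)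
      set T := (univ.filter fun C : Finset (X × Bool) => NT C ∧ n = C.card + (m + 1)).toList with hT
      refine ⟨L ++ T, isDer_append hL1 ?_, ?_, ?_, ?_⟩
      · intro C hC
        right
        rw [hT, Finset.mem_toList, Finset.mem_filter] at hC
        obtain ⟨-, hNT, hCc⟩ := hC
        -- a variable which does not occur in `C`
        obtain ⟨x, hx⟩ : ∃ x, x ∉ C.image Prod.fst := by
          by_contra hcon
          push Not at hcon
          have h1 : (univ : Finset X) ⊆ C.image Prod.fst := fun x _ => hcon x
          have h2 := (Finset.card_le_card h1).trans Finset.card_image_le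
          rw [Finset.card_univ] at h2
          omega
        have hxb : ∀ b, (x, b) ∉ C := fun b hb => hx (Finset.mem_image.2 ⟨_, hb, rfl⟩)
        have hNTb : ∀ b, NT (insert (x, b) C) := by
          intro b y ⟨h1, h2⟩
          rw [Finset.mem_insert] at h1 h2
          rcases h1 with h1 | h1
          · rcases h2 with h2 | h2
            · rw [Prod.mk.injEq] at h1 h2
              rw [← h1.2] at h2
              exact absurd h2.2 (by simp)
            · rw [Prod.mk.injEq] at h1
              rw [h1.1] at h2
              exact hxb _ h2
          · rcases h2 with h2 | h2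
            · rw [Prod.mk.injEq] at h2
              rw [h2.1] at h1
              exact hxb _ h1
            · exact hNT y ⟨h1, h2⟩
        have hmem : ∀ b, insert (x, b) C ∈ L := by
          intro b
          apply hL3 _ (hNTb b)
          rw [Finset.card_insert_of_notMem (hxb b)]
          omega
        exact ⟨_, hmem true, _, hmem false, x, Subset.rfl, Subset.rfl⟩
      · intro C hC
        exact List.mem_append_left _ (hL2 C hC)
      · intro C h1 h2
        by_cases h3 : n ≤ C.card + m
        · exact List.mem_append_left _ (hL3 C h1 h3)
        · apply List.mem_append_right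
          rw [hT, Finset.mem_toList, Finset.mem_filter]
          exact ⟨Finset.mem_univ _, h1, by omega⟩
      · rw [List.length_append, hT, Finset.length_toList]
        have h5 : (univ.filter fun C : Finset (X × Bool) => n ≤ C.card + m).card +
            (univ.filter fun C : Finset (X × Bool) => NT C ∧ n = C.card + (m + 1)).card ≤
            (univ.filter fun C : Finset (X × Bool) => n ≤ C.card + (m + 1)).card := by
          rw [← Finset.card_union_of_disjoint]
          · apply Finset.card_le_card
            intro C hC
            rw [Finset.mem_union, Finset.mem_filter, Finset.mem_filter] at hC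
            rw [Finset.mem_filter]
            refine ⟨Finset.mem_univ _, ?_⟩
            rcases hC with h | h
            · omega
            · omega
          · rw [Finset.disjoint_left]
            intro C h1 h2
            rw [Finset.mem_filter] at h1 h2
            omega
        omega
  obtain ⟨L, h1, h2, h3, h4⟩ := key n le_rfl
  refine ⟨L, ⟨h3 ∅ (fun x h => absurd h.1 (Finset.notMem_empty _)) (by simp), h1⟩, ?_⟩
  have h5 := Finset.card_le_univ FL
  have h6 := Finset.card_le_univ (univ.filter fun C : Finset (X × Bool) => n ≤ C.card + n)
  rw [hcardall] at h5 h6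
  omega

end

/-- resolution refutations of games of value less than one -/
theorem refutation_exists (G : Game N q) (h : ¬ ∃ x y, numSat G x y = G.length) :
    ∃ L, IsRefutation (cnf G) L ∧ L.length ≤ 2 * 16 ^ (N * q) := by
  rw [← cnf_sat] at h
  obtain ⟨L, h1, h2⟩ := resolution_complete (cnf G) h
  refine ⟨L, h1, h2.trans (le_of_eq ?_)⟩
  rw [Fintype.card_prod, Fintype.card_sum, Fintype.card_fin, Fintype.card_fin]
  congr 1
  rw [show (N + N) * q = 2 * (N * q) by ring, pow_mul]
  norm_num

/-- soundness of resolution: a satisfiable set of clauses has no refutation -/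
theorem no_refutation {X : Type} [DecidableEq X] {F : Set (Finset (X × Bool))} {v : X → Bool}
    (hv : Satisfies v F) (L : List (Finset (X × Bool))) : ¬ IsRefutation F L := by
  rintro ⟨h0, hL⟩
  have key : ∀ i, ∀ hi : i < L.length, ∃ l ∈ L[i], v l.1 = l.2 := by
    intro i
    induction i using Nat.strong_induction_on with
    | _ i ih =>
      intro hi
      rcases hL i hi with h | ⟨j, k, hj, hk, x, h1, h2⟩
      · exact hv _ h
      · cases hx : v x with
        | true =>
          obtain ⟨l, hl, hvl⟩ := ih k hk (by omega)
          rcases Finset.mem_insert.1 (h2 hl) with h | h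
          · rw [h] at hvl
            simp [hx] at hvl
          · exact ⟨l, h, hvl⟩
        | false =>
          obtain ⟨l, hl, hvl⟩ := ih j hj (by omega)
          rcases Finset.mem_insert.1 (h1 hl) with h | h
          · rw [h] at hvl
            simp [hx] at hvl
          · exact ⟨l, h, hvl⟩
  obtain ⟨i, hi, h⟩ := List.getElem_of_mem h0
  obtain ⟨l, hl, -⟩ := key i hi
  rw [h] at hl
  exact absurd hl (Finset.notMem_empty _)

end Pool.Agent.K6.H21.LC
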